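import Pool.Agent.Lib.helper21.NS
set_option linter.style.longLine false
namespace Pool.Agent.Results.MP_395df9_lc.Yes
open Set Cardinal Order Function Pool.Agent.Lib.helper21.NS

/-- `ω₁` -/
abbrev W : Type := (ℵ₁ : Cardinal.{0}).ord.ToType

/-- the stick principle -/
def Stick : Prop := ∃ 𝒮 : Set (Set W), #𝒮 = ℵ₁ ∧ (∀ S ∈ 𝒮, S.Countable ∧ S.Infinite) ∧
  ∀ Y : Set W, ¬ Y.Countable → ∃ S ∈ 𝒮, S ⊆ Y

/-- `(1, ω)`-weakly universal -/
def WU (U : Sym2 W → ℕ) : Prop := ∀ F : Sym2 W → ℕ, ∃ (h : W → W) (e : ℕ → ℕ), Injective h ∧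
  (∀ n, (e ⁻¹' {n}).Finite) ∧ ∀ α β, α ≠ β → F s(α, β) = e (U s(h α, h β))

theorem result (st : Stick) (c : ℵ₁ < (𝔠 : Cardinal.{0})) (U : Sym2 W → ℕ) : ¬ WU U := fun u => by
  classical
  obtain ⟨𝒮, s1, s2, s3⟩ := st
  have R : Reg W := reg_of_isRegular isRegular_aleph_one aleph0_lt_aleph_one
  have mk : #W = ℵ₁ := mk_ord_toType _
  have mm := mul_eq_self aleph0_lt_aleph_one.{0}.le
  obtain ⟨b⟩ : Nonempty (W × W ≃ W) := Cardinal.eq.1 (by simp only [mk_prod, lift_id, mk, mm])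
  obtain ⟨t⟩ : Nonempty (W ≃ 𝒮 × W) := Cardinal.eq.1 (by simp only [mk_prod, lift_id, mk, mm, s1])
  let A := fun S : Set W => Prod.fst '' (b ⁻¹' S)
  have : ∀ S : Set W, ∃ P, (A S).Infinite → ∀ γ (K : Finset ℕ), P ∩ A S ≠ {α | ∃ δ, b (α, δ) ∈ S ∧ U s(δ, γ) ∈ K} :=
    fun S => by_contra fun k => by
    push Not at k
    have := (k ∅).1.to_subtype
    choose γ K hK using fun P => (k P).2
    refine c.not_ge (((two_power_aleph0 ▸ power_le_power_left two_ne_zero (aleph0_le_mk (A S))).trans_eq mk_set.symm).trans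
      ((mk_le_of_injective (f := fun P : Set (A S) => (γ (Subtype.val '' P), K (Subtype.val '' P))) fun P Q e => ?_).trans ?_))
    · have := hK (Subtype.val '' P)
      rw [(Prod.mk.inj e).1, (Prod.mk.inj e).2, ← hK] at this
      exact Set.ext fun x => by simpa using Set.ext_iff.1 this x
    · simpa only [mk_prod, lift_id, mk] using (mul_le_mul' le_rfl (mk_le_aleph0.trans aleph0_lt_aleph_one.le)).trans mm.le
  choose P hP using this
  obtain ⟨h, e, h1, e1, k⟩ := u fun z => if z.inf ∈ P (t z.sup).1 then 1 else 0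
  have un : ∀ {f : W → W}, Injective f → ¬ (range f).Countable := fun i d =>
    R.unc.not_ge (mk_range_eq _ i ▸ le_aleph0_iff_set_countable.2 d)
  obtain ⟨S, a, d⟩ := s3 _ (un (f := fun α => b (α, h α)) fun _ _ i => (Prod.mk.inj (b.injective i)).1)
  have g : ∀ α δ, b (α, δ) ∈ S → δ = h α := fun α δ i => by
    obtain ⟨x, j⟩ := d i
    obtain ⟨rfl, rfl⟩ := Prod.mk.inj (b.injective j)
    rfl
  obtain ⟨x, hx⟩ := R.bdd (A S) ((le_aleph0_iff_set_countable.2 (((s2 S a).1.preimage b.injective).image _)).trans_lt R.unc)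
  obtain ⟨_, ⟨y, rfl⟩, hy⟩ := not_bddAbove_iff.1 (fun (⟨z, i⟩ : BddAbove (range fun y => t.symm (⟨S, a⟩, y))) => un
    (fun _ _ i => (Prod.mk.inj (t.symm.injective i)).2) (le_aleph0_iff_set_countable.1 (by
      rw [← lt_succ_iff, succ_aleph0]; exact ((mk_le_mk_of_subset i).trans_lt (R.small z)).trans_eq mk))) x
  refine hP S (((s2 S a).2.preimage (by simp)).image fun p i q j l =>
    Prod.ext l ((g _ _ i).trans (l ▸ (g _ _ j).symm))) (h (t.symm (⟨S, a⟩, y))) (e1 1).toFinset (Set.ext fun α => ?_)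
  have m : ∀ δ, b (α, δ) ∈ S → (α ∈ P S ↔ e (U s(δ, h (t.symm (⟨S, a⟩, y)))) = 1) := fun δ i => by
    have l := (hx ⟨_, i, rfl⟩).trans_lt hy
    rw [g _ _ i, ← k _ _ l.ne]
    simp [l.le]
  exact ⟨fun ⟨i, p, j, l⟩ => ⟨p.2, l ▸ j, by simpa using (m _ (l ▸ j)).1 i⟩, fun ⟨δ, i, j⟩ =>
    ⟨(m δ i).2 (by simpa using j), _, i, rfl⟩⟩

end Pool.Agent.Results.MP_395df9_lc.Yes
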